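import Pool.Agent.W595.PT.Stms

/-! Project PT: the projective modules `Gid p f`. -/

set_option autoImplicit false

namespace Pool.Agent.W597.PT.GEND

universe u

open Pool.Agent.W595.PT Gam

variable {L : Type u} [Ring L]

/-- the idempotent -/
def eps (p : ℕ) (f : L) : Gam L := io f * po p

theorem eps_a (p : ℕ) (f : L) (q : Fin 7) : (eps p f).a q = if (q : ℕ) = p then f else 0 := by
  unfold eps
  rw [mul_a, io_a, po_a]
  split_ifs <;> simp

theorem eps_b (p : ℕ) (f : L) (s : Fin 6) : (eps p f).b s = 0 := by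
  unfold eps
  simp

theorem eps_eps (p : ℕ) (f : L) (hf : f * f = f) : eps p f * eps p f = eps p f := by
  ext q
  · rw [mul_a, eps_a]
    split_ifs
    · exact hf
    · simp
  · rw [mul_b, eps_b]; simp

theorem mem_Gid (p : ℕ) (f : L) (x : Gam L) : x ∈ Gid p f ↔ x * eps p f = x := Iff.rfl

theorem eps_mem (p : ℕ) (f : L) (hf : f * f = f) : eps p f ∈ Gid p f := eps_eps p f hf

/-- the idempotent as an element of the module -/
def ee (p : ℕ) (f : L) (hf : f * f = f) : (Gid p f : Submodule (Gam L) (Gam L)) :=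
  ⟨eps p f, eps_mem p f hf⟩

theorem smul_ee (p : ℕ) (f : L) (hf : f * f = f) (x : (Gid p f : Submodule (Gam L) (Gam L))) :
    (x : Gam L) • ee p f hf = x := by
  apply Subtype.ext
  exact x.2

theorem eps_smul_ee (p : ℕ) (f : L) (hf : f * f = f) :
    (eps p f) • ee p f hf = ee p f hf := smul_ee p f hf (ee p f hf)

theorem s_GEND : S_GEND.{u} := by
  intro L _ f hf hx p g
  set w := g (ee p f hf) with hw
  set y : Gam L := (w : Gam L) with hy
  have h1 : eps p f * y = y := by
    have h2 : eps p f • w = w := by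
      rw [hw, ← map_smul, eps_smul_ee]
    exact congrArg Subtype.val h2
  have h2 : y * eps p f = y := w.2
  have hb : y.b = 0 := by
    funext s
    have e1 := congrFun (congrArg Gam.b h1) s
    have e2 := congrFun (congrArg Gam.b h2) s
    rw [mul_b, eps_a, eps_b, zero_mul, add_zero] at e1
    rw [mul_b, eps_a, eps_b, mul_zero, zero_add] at e2
    by_cases h3 : ((s.castSucc : Fin 7) : ℕ) = p
    · rw [if_neg, zero_mul] at e1
      · exact e1.symm
      · rw [Fin.val_succ]
        rw [Fin.val_castSucc] at h3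
        omega
    · rw [if_neg h3, mul_zero] at e2
      exact e2.symm
  have ha : ∀ q : Fin 7, y.a q = if (q : ℕ) = p then f * y.a q * f else 0 := by
    intro q
    have e1 := congrFun (congrArg Gam.a h1) q
    have e2 := congrFun (congrArg Gam.a h2) q
    rw [mul_a, eps_a] at e1 e2
    split_ifs at e1 e2 ⊢ with h3
    · rw [e1, e2]
    · rw [zero_mul] at e1
      exact e1.symm
  have hg : ∀ x : (Gid p f : Submodule (Gam L) (Gam L)), g x = (x : Gam L) • w := by
    intro x
    rw [hw, ← map_smul, smul_ee]
  by_cases hp : p < 7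
  · rcases hx (y.a ⟨p, hp⟩) with h3 | h3
    · left
      have hy0 : y = 0 := by
        ext q
        · rw [ha q]
          split_ifs with h4
          · have : q = ⟨p, hp⟩ := Fin.ext h4
            rw [this, h3]; rfl
          · rfl
        · rw [hb]; rfl
      have hw0 : w = 0 := Subtype.ext hy0
      ext x : 1
      rw [hg, hw0, smul_zero]
      rfl
    · right
      have hy1 : y = eps p f := by
        ext q
        · rw [ha q, eps_a]
          split_ifs with h4
          · have : q = ⟨p, hp⟩ := Fin.ext h4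
            rw [this, h3]
          · rfl
        · rw [hb, eps_b]; rfl
      have hw1 : w = ee p f hf := Subtype.ext hy1
      have hid : ∀ x, g x = x := by
        intro x
        rw [hg, hw1, smul_ee]
      exact ⟨fun x z h => by rwa [hid, hid] at h, fun x => ⟨x, hid x⟩⟩
  · left
    have hy0 : y = 0 := by
      ext q
      · rw [ha q, if_neg (by have := q.2; omega)]; rfl
      · rw [hb]; rfl
    have hw0 : w = 0 := Subtype.ext hy0
    ext x : 1
    rw [hg, hw0, smul_zero]
    rfl

theorem s_GHOM : S_GHOM.{u} := by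
  intro L _ f g hf hg p q hp hq hf0 hg0 hcase
  refine ⟨fun G => ?_⟩
  set w := G (ee p f hf) with hw
  set z := G.symm (ee q g hg) with hz
  have h1 : eps p f * (w : Gam L) = w := by
    have h2 : eps p f • w = w := by rw [hw, ← map_smul, eps_smul_ee]
    exact congrArg Subtype.val h2
  have h2 : (w : Gam L) * eps q g = w := w.2
  have h3 : eps q g * (z : Gam L) = z := by
    have h2 : eps q g • z = z := by rw [hz, ← map_smul, eps_smul_ee]
    exact congrArg Subtype.val h2
  have h4 : (z : Gam L) * eps p f = z := z.2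
  have h5 : eps p f = (w : Gam L) * (z : Gam L) := by
    have e1 : G.symm w = ee p f hf := by rw [hw, LinearEquiv.symm_apply_apply]
    have e2 : G.symm w = (w : Gam L) • z := by
      rw [hz, ← map_smul, smul_ee]
    rw [e2] at e1
    exact (congrArg Subtype.val e1).symm
  have e5 := congrFun (congrArg Gam.a h5) ⟨p, hp⟩
  rw [eps_a, if_pos rfl, mul_a] at e5
  have e1 := congrFun (congrArg Gam.a h1) ⟨p, hp⟩
  have e2 := congrFun (congrArg Gam.a h2) ⟨p, hp⟩
  have e3 := congrFun (congrArg Gam.a h3) ⟨p, hp⟩
  have e4 := congrFun (congrArg Gam.a h4) ⟨p, hp⟩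
  rw [mul_a, eps_a] at e1 e2 e3 e4
  rw [if_pos rfl] at e1 e4
  by_cases hpq : p = q
  · subst hpq
    rw [if_pos rfl] at e2 e3
    rcases hcase with h | h | h
    · exact h rfl
    · apply hf0
      rw [e5, ← e2, ← e1, h, zero_mul]
    · apply hf0
      rw [e5, ← e4, ← e3, h, mul_zero]
  · rw [if_neg (fun h => hpq h), mul_zero] at e2
    apply hf0
    rw [e5, ← e2, zero_mul]

theorem dec_gen (S : Type u) [Ring S] (ι : Type) [Fintype ι] [DecidableEq ι] (E : ι → S)
    (hE : ∀ i, E i * E i = E i) (ho : ∀ i j, i ≠ j → E i * E j = 0) (J : Submodule S S)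
    (N : ι → Submodule S S) (hN : ∀ i x, x ∈ N i ↔ x * E i = x)
    (hJ : ∀ x ∈ J, ∑ i, x * E i = x) (hNJ : ∀ i, N i ≤ J) :
    Nonempty (J ≃ₗ[S] ((i : ι) → N i)) := by
  let F : J → ((i : ι) → N i) := fun x i => ⟨(x : S) * E i, by rw [hN, mul_assoc, hE]⟩
  let T : J →ₗ[S] ((i : ι) → N i) :=
    { toFun := F
      map_add' := fun x y => by
        funext i
        apply Subtype.ext
        exact add_mul (x : S) y (E i)
      map_smul' := fun c x => by
        funext i
        apply Subtype.ext
        exact mul_assoc c (x : S) (E i) }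
  refine ⟨LinearEquiv.ofBijective T ⟨?_, ?_⟩⟩
  · intro x y h
    apply Subtype.ext
    rw [← hJ x x.2, ← hJ y y.2]
    refine Finset.sum_congr rfl (fun i _ => ?_)
    exact congrArg Subtype.val (congrFun h i)
  · intro y
    refine ⟨⟨∑ i, (y i : S), sum_mem fun i _ => hNJ i (y i).2⟩, ?_⟩
    funext i
    apply Subtype.ext
    show (∑ j, (y j : S)) * E i = y i
    rw [Finset.sum_mul, Finset.sum_eq_single i]
    · exact (hN i _).1 (y i).2
    · intro j _ hj
      rw [← (hN j _).1 (y j).2, mul_assoc, ho j i hj, mul_zero]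
    · intro h
      exact absurd (Finset.mem_univ i) h

theorem s_DEC : S_DEC.{u} := by
  classical
  intro L _ f hf ho h1
  have hoE : ∀ (p q : ℕ) (i j : Fin 3), (p, i) ≠ (q, j) → eps p (f i) * eps q (f j) = 0 := by
    intro p q i j hij
    ext x
    · rw [mul_a, eps_a, eps_a]
      split_ifs with h2 h3
      · rw [ho i j (fun h => hij (by rw [← h2, ← h3, h]))]; rfl
      · simp
      · simp
      · simp
    · rw [mul_b, eps_b, eps_b]; simp
  have hsum : ∀ p, ∑ i : Fin 3, eps p (f i) = po p := by
    intro p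
    unfold eps
    rw [← Finset.sum_mul, ← map_sum, Fin.sum_univ_three, h1, map_one, one_mul]
  refine ⟨?_, ?_⟩
  · obtain ⟨e⟩ := dec_gen (Gam L) (Fin 7 × Fin 3) (fun i => eps (i.1 : ℕ) (f i.2))
      (fun i => eps_eps _ _ (hf i.2)) (fun i j hij => hoE _ _ _ _ (fun h => hij (by
        have h2 := congrArg Prod.fst h
        have h3 := congrArg Prod.snd h
        exact Prod.ext (Fin.ext h2) h3))) ⊤ (fun i => Gid (i.1 : ℕ) (f i.2))
      (fun i x => mem_Gid _ _ _) (fun x _ => by
        rw [← Finset.mul_sum, Fintype.sum_prod_type]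
        simp only [hsum]
        rw [Fin.sum_univ_eq_sum_range (fun p => (po p : Gam L)) 7, sum_po, mul_one])
      (fun i => le_top)
    exact ⟨(Submodule.topEquiv.symm).trans e⟩
  · refine dec_gen (Gam L) (Fin 6 × Fin 3) (fun i => eps (i.1 : ℕ) (f i.2))
      (fun i => eps_eps _ _ (hf i.2)) (fun i j hij => hoE _ _ _ _ (fun h => hij (by
        have h2 := congrArg Prod.fst h
        have h3 := congrArg Prod.snd h
        exact Prod.ext (Fin.ext h2) h3))) (Lid L) (fun i => Gid (i.1 : ℕ) (f i.2))
      (fun i x => mem_Gid _ _ _) (fun x hx => ?_) (fun i x hx => ?_)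
    · have hx' : x * po 6 = 0 := hx
      rw [← Finset.mul_sum, Fintype.sum_prod_type]
      simp only [hsum]
      rw [Fin.sum_univ_eq_sum_range (fun p => (po p : Gam L)) 6]
      have h7 := sum_po (L := L)
      rw [Finset.sum_range_succ] at h7
      have h8 := congrArg (fun t => x * t) h7
      rw [mul_add, hx', add_zero, mul_one] at h8
      exact h8
    · have hx' : x * eps (i.1 : ℕ) (f i.2) = x := hx
      show x * po 6 = 0
      rw [← hx']
      unfold eps
      rw [mul_assoc, mul_assoc, po_po_ne (by have := i.1.2; omega), mul_zero, mul_zero]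

end Pool.Agent.W597.PT.GEND
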